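import Pool.Agent.H15.FLC.Targets

/-!
Row LFC of fl2_modules (MP_c62aed_lc): few `y` are bad for a chain (adapted from
`Pool/Agent/H5/MSC/LF.lean` of helper5 and `Pool/Agent/H19/FLX/LFX.lean` of helper19).
-/

set_option autoImplicit false

namespace Pool.Agent.H13.FLC

open Finset
open Pool.Agent.H15.FLC

open Classical in
theorem natCard_filter {α : Type} [Fintype α] (P : α → Prop) :
    Nat.card {a : α // P a} = (univ.filter P).card := by
  rw [Nat.card_eq_fintype_card, Fintype.card_subtype]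

/-- the sets of clauses which contain `T` and are bad above `T` -/
def BADY {n k m : ℕ} (H : Fin m → Half n k)
    (𝒦 : Set (Set (Finset (Fin n) × (Fin n → Bool)))) (T : Finset (Fin m)) (l : ℕ)
    (R : Set (Fin m)) : Prop :=
  (∀ c ∈ T, c ∈ R) ∧ ∃ K ∈ 𝒦, (∀ p ∈ K, ∃ c ∈ R, InsC H p c) ∧
    ∀ T2 : Finset (Fin m), T ⊆ T2 → (∀ c ∈ T2, c ∈ R) → T2.card ≤ T.card + l →
      ∃ p ∈ K, ∀ c ∈ T2, ¬ InsC H p c

/-- the smallest kernel with a member not hit by `T` -/
theorem step {n k m : ℕ} (H : Fin m → Half n k)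
    (𝒦 : Set (Set (Finset (Fin n) × (Fin n → Bool)))) (hch : IsChain (· ⊆ ·) 𝒦) (w : ℕ)
    (hw : ∀ K ∈ 𝒦, ∀ p ∈ K, p.1.card < w) (T : Finset (Fin m)) :
    (∀ (l : ℕ) (R : Set (Fin m)), ¬ BADY H 𝒦 T l R) ∨
    ∃ p : Finset (Fin n) × (Fin n → Bool), p.1.card < w ∧ (∀ c ∈ T, ¬ InsC H p c) ∧
      ∀ (l : ℕ) (R : Set (Fin m)), BADY H 𝒦 T l R → ∃ c ∈ R, InsC H p c := by
  classical
  by_cases h : ∃ K ∈ 𝒦, ∃ p ∈ K, ∀ c ∈ T, ¬ InsC H p c
  · right
    let S : Set (Set (Finset (Fin n) × (Fin n → Bool))) :=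
      {K | K ∈ 𝒦 ∧ ∃ p ∈ K, ∀ c ∈ T, ¬ InsC H p c}
    have hne : S.Nonempty := by
      obtain ⟨K, hK, hp⟩ := h
      exact ⟨K, hK, hp⟩
    have hwf : WellFounded
        (fun A B : Set (Finset (Fin n) × (Fin n → Bool)) => A < B) := wellFounded_lt
    obtain ⟨K0, hK0, hmin⟩ := hwf.has_min S hne
    obtain ⟨hK0c, p, hpK, hpT⟩ := hK0
    refine ⟨p, hw K0 hK0c p hpK, hpT, ?_⟩
    intro l R hF
    obtain ⟨hR, K2, hK2, hhit, hbad⟩ := hF
    have hK2S : K2 ∈ S := ⟨hK2, hbad T (Finset.Subset.refl T) hR (Nat.le_add_right _ _)⟩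
    have hsub : K0 ⊆ K2 := by
      rcases hch.total hK0c hK2 with h1 | h1
      · exact h1
      · have h2 := hmin K2 hK2S
        by_contra h3
        exact h2 (lt_of_le_not_ge h1 h3)
    exact hhit p (hsub hpK)
  · left
    intro l R hF
    obtain ⟨hR, K2, hK2, -, hbad⟩ := hF
    exact h ⟨K2, hK2, hbad T (Finset.Subset.refl T) hR (Nat.le_add_right _ _)⟩

open Classical in
/-- the objects of a union are counted by a bound for each member -/
theorem cnt_le {α ι : Type} [Fintype α] (P : α → Prop) (C : Finset ι)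
    (Q : ι → α → Prop) (b s : ℕ) (hC : C.card ≤ s)
    (hPQ : ∀ x, P x → ∃ c ∈ C, Q c x) (hQ : ∀ c ∈ C, Nat.card {x // Q c x} ≤ b) :
    Nat.card {x // P x} ≤ s * b := by
  rw [natCard_filter]
  have h1 : univ.filter P ⊆ C.biUnion fun c => univ.filter (Q c) := by
    intro x hx
    rw [mem_filter] at hx
    obtain ⟨c, hc, hq⟩ := hPQ x hx.2
    rw [mem_biUnion]
    exact ⟨c, hc, by rw [mem_filter]; exact ⟨mem_univ _, hq⟩⟩
  calc (univ.filter P).card ≤ (C.biUnion fun c => univ.filter (Q c)).card := card_le_card h1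
    _ ≤ ∑ c ∈ C, (univ.filter (Q c)).card := card_biUnion_le
    _ ≤ ∑ _c ∈ C, b := by
        refine sum_le_sum (fun c hc => ?_)
        rw [← natCard_filter]
        exact hQ c hc
    _ = C.card * b := by rw [sum_const, smul_eq_mul]
    _ ≤ s * b := Nat.mul_le_mul_right _ hC

open Classical in
/-- the claim -/
theorem claim {n k m : ℕ} (H H' : Fin m → Half n k) (w s₀ q N : ℕ)
    (hH : ∀ p : Finset (Fin n) × (Fin n → Bool), p.1.card < w →
      Nat.card {c // InsC H p c} ≤ s₀)
    (hN : ∀ T : Finset (Fin m), T.card = q + 1 →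
      Nat.card {y : Fin n → Bool // ∀ c ∈ T, c ∈ RY H' y} ≤ N)
    (𝒦 : Set (Set (Finset (Fin n) × (Fin n → Bool)))) (hch : IsChain (· ⊆ ·) 𝒦)
    (hw : ∀ K ∈ 𝒦, ∀ p ∈ K, p.1.card < w) :
    ∀ (l : ℕ) (T : Finset (Fin m)), T.card + l = q →
      Nat.card {y : Fin n → Bool // BADY H 𝒦 T l (RY H' y)} ≤ s₀ ^ (l + 1) * N := by
  have hemp : ∀ (T : Finset (Fin m)) (l b : ℕ), (∀ R : Set (Fin m), ¬ BADY H 𝒦 T l R) →
      Nat.card {y : Fin n → Bool // BADY H 𝒦 T l (RY H' y)} ≤ b := by
    intro T l b h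
    have : IsEmpty {y : Fin n → Bool // BADY H 𝒦 T l (RY H' y)} := ⟨fun F => h _ F.2⟩
    rw [Nat.card_of_isEmpty]
    exact Nat.zero_le _
  intro l
  induction l with
  | zero =>
    intro T hT
    rcases step H 𝒦 hch w hw T with h | ⟨p, hp, hpT, hhit⟩
    · exact hemp T 0 _ (fun R => h 0 R)
    · have hC : (univ.filter fun c : Fin m => InsC H p c).card ≤ s₀ := by
        rw [← natCard_filter]
        exact hH p hp
      rw [zero_add, pow_one]
      refine cnt_le (fun y => BADY H 𝒦 T 0 (RY H' y))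
        (univ.filter fun c : Fin m => InsC H p c)
        (fun c y => c ∉ T ∧ ∀ c' ∈ insert c T, c' ∈ RY H' y) _ s₀ hC ?_ ?_
      · intro y hF
        obtain ⟨c, hcR, hc⟩ := hhit 0 _ hF
        refine ⟨c, by rw [mem_filter]; exact ⟨mem_univ _, hc⟩, fun h => hpT _ h hc, ?_⟩
        intro c' hc'
        rcases mem_insert.1 hc' with h1 | h1
        · rw [h1]
          exact hcR
        · exact hF.1 c' h1
      · intro c _
        by_cases hcT : c ∈ T
        · have : IsEmpty {y : Fin n → Bool // c ∉ T ∧ ∀ c' ∈ insert c T, c' ∈ RY H' y} :=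
            ⟨fun F => F.2.1 hcT⟩
          rw [Nat.card_of_isEmpty]
          exact Nat.zero_le _
        · have hcard : (insert c T).card = q + 1 := by
            rw [card_insert_of_notMem hcT]
            omega
          refine le_trans (Nat.card_mono (Set.toFinite _) ?_) (hN (insert c T) hcard)
          intro y hy
          exact hy.2
  | succ l ih =>
    intro T hT
    rcases step H 𝒦 hch w hw T with h | ⟨p, hp, hpT, hhit⟩
    · exact hemp T (l + 1) _ (fun R => h (l + 1) R)
    · have hC : (univ.filter fun c : Fin m => InsC H p c).card ≤ s₀ := by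
        rw [← natCard_filter]
        exact hH p hp
      have hpow : s₀ ^ (l + 1 + 1) * N = s₀ * (s₀ ^ (l + 1) * N) := by
        rw [pow_succ s₀ (l + 1)]
        ring
      rw [hpow]
      refine cnt_le (fun y => BADY H 𝒦 T (l + 1) (RY H' y))
        (univ.filter fun c : Fin m => InsC H p c)
        (fun c y => c ∉ T ∧ BADY H 𝒦 (insert c T) l (RY H' y)) _ s₀ hC ?_ ?_
      · intro y hF
        obtain ⟨c, hcR, hc⟩ := hhit (l + 1) _ hF
        have hnT : c ∉ T := fun h => hpT _ h hc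
        refine ⟨c, by rw [mem_filter]; exact ⟨mem_univ _, hc⟩, hnT, ?_, ?_⟩
        · intro c' hc'
          rcases mem_insert.1 hc' with h1 | h1
          · rw [h1]
            exact hcR
          · exact hF.1 c' h1
        · obtain ⟨-, K, hK, hKh, hKb⟩ := hF
          refine ⟨K, hK, hKh, ?_⟩
          intro T2 hT2 hR2 hc2
          refine hKb T2 (subset_trans (subset_insert _ _) hT2) hR2 ?_
          rw [card_insert_of_notMem hnT] at hc2
          omega
      · intro c _
        by_cases hcT : c ∈ T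
        · have : IsEmpty {y : Fin n → Bool // c ∉ T ∧ BADY H 𝒦 (insert c T) l (RY H' y)} :=
            ⟨fun F => F.2.1 hcT⟩
          rw [Nat.card_of_isEmpty]
          exact Nat.zero_le _
        · have h1 := ih (insert c T) (by
            rw [card_insert_of_notMem hcT]
            omega)
          refine le_trans (Nat.card_mono (Set.toFinite _) ?_) h1
          intro y hy
          exact hy.2

/-- LFC -/
theorem pf_LFC : T_LFC := by
  intro n k m H H' w s₀ q N hH hN 𝒦 hch hw
  have h := claim H H' w s₀ q N hH hN 𝒦 hch hw q ∅ (by rw [card_empty, zero_add])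
  refine le_trans (Nat.card_mono (Set.toFinite _) ?_) h
  intro y hy
  obtain ⟨K, hK, hKh, hKb⟩ := hy
  refine ⟨fun c hc => absurd hc (notMem_empty c), K, hK, hKh, ?_⟩
  intro T2 _ hR2 hc2
  refine hKb T2 hR2 ?_
  rw [card_empty, zero_add] at hc2
  exact hc2

end Pool.Agent.H13.FLC
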